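import Pool.Agent.H37.CA.Targets

/-!
# The Galois group of a ray class field is commutative
-/

set_option autoImplicit false

open NumberField Complex Filter Topology

namespace Pool.Agent.H42.CA

open Pool.Agent.H37.CA Pool.Agent.H37.CV Pool.Agent.H28.RC Pool.Agent.H25 Pool.Agent.H25.HK

theorem pf_COM (hGRF : T_GRF) : T_COM := by
  intro F L _ _ _ _ _ _ _ m hR a ha b hb
  obtain ⟨θ, hmul, -, hsurj, -⟩ := hR
  obtain ⟨g, rfl⟩ := (hGRF F L).2.2.1 a ha
  obtain ⟨g', rfl⟩ := (hGRF F L).2.2.1 b hb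
  obtain ⟨I, hI, hIm, rfl⟩ := hsurj g
  obtain ⟨J, hJ, hJm, rfl⟩ := hsurj g'
  have h : θ I * θ J = θ J * θ I := by
    rw [← hmul I J hI hJ hIm hJm, ← hmul J I hJ hI hJm hIm, mul_comm]
  ext x
  exact congrArg (fun k : L ≃ₐ[F] L => k x) h

end Pool.Agent.H42.CA
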