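import Pool.Agent.H9.CA.TarG

/-! # GB: sizes of levels -/

set_option autoImplicit false

open Ordinal Order Set
open scoped ZFSet

namespace CAA

open SF

namespace GBaux

/-- the codes belong to a good set -/
theorem cd_mem {C : V} (hC : Gd C) (φ : Fml) : cd φ ∈ C := by
  have hn : ∀ n : ℕ, nS n ∈ C := fun n => hC.tr _ hC.om (nS_mem_om n)
  induction φ with
  | mem i j => exact hC.pr _ (hn 0) _ (hC.pr _ (hn i) _ (hn j))
  | eq i j => exact hC.pr _ (hn 1) _ (hC.pr _ (hn i) _ (hn j))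
  | prd i => exact hC.pr _ (hn 2) _ (hn i)
  | neg φ ih => exact hC.pr _ (hn 3) _ ih
  | and φ ψ ih1 ih2 => exact hC.pr _ (hn 4) _ (hC.pr _ ih1 _ ih2)
  | ex φ ih => exact hC.pr _ (hn 5) _ ih

/-- the definable set with the code `u` -/
noncomputable def dset (x u : V) : V :=
  x.sep fun z => ZFSet.pair z (ZFSet.pair z (SF.snd u)) ∈ SF.sS x ∅ (SF.fst u)

theorem rg_dset (x : V) : rg (resS (ZFSet.prod SF.CD (SF.Lw x)) (dset x)) = Def x ∅ := by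
  ext y
  rw [mem_rg, mem_Def']
  constructor
  · rintro ⟨u, hu⟩
    rw [pair_mem_resS] at hu
    obtain ⟨hu, rfl⟩ := hu
    obtain ⟨c, hc, s, hs, rfl⟩ := ZFSet.mem_prod.1 hu
    refine ⟨c, hc, s, hs, ?_⟩
    unfold dset
    rw [fst_pair, snd_pair]
  · rintro ⟨c, hc, s, hs, rfl⟩
    refine ⟨ZFSet.pair c s, ?_⟩
    rw [pair_mem_resS]
    refine ⟨ZFSet.pair_mem_prod.2 ⟨hc, hs⟩, ?_⟩
    unfold dset
    rw [fst_pair, snd_pair]

theorem tm_dset : Tm ZFm (fun _ v => resS (ZFSet.prod SF.CD (SF.Lw (v 0))) (dset (v 0))) := by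
  refine Tm.resS (f := fun _ v => ZFSet.prod SF.CD (SF.Lw (v 0)))
    (g := fun _ u => dset (u 1) (u 0)) ?_ ?_
  · exact Tm.prod Tm.CD (Tm.Lw (Tm.var 0))
  · exact Tm.sep (R := fun _ w => ZFSet.pair (w 0) (ZFSet.pair (w 0) (SF.snd (w 1))) ∈
      SF.sS (w 2) ∅ (SF.fst (w 1)))
      (Dfb.mem (Tm.pair (Tm.var 0) (Tm.pair (Tm.var 0) (Tm.snd (Tm.var 1))))
        (Tm.sS (Tm.var 2) Tm.empty (Tm.fst (Tm.var 1)))) (Tm.var 1)

theorem tm_def : Tm ZFm (fun _ v => resS (v 0) fun x => Def (LAS ∅ x) ∅) :=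
  Tm.resS (f := fun _ v => v 0) (g := fun _ u => Def (LAS ∅ (u 0)) ∅) (Tm.var 0)
    (Tm.Def (Tm.LAS Tm.empty (Tm.var 0)) Tm.empty)

end GBaux

open GBaux

theorem pf_GB (hDF : T_DF) (hDG : T_DG) : T_GB := by
  intro M k C hMC hC δ
  obtain ⟨-, h2, h3, h4, -, h6, h7, -, -, -⟩ := hDF M k.toZFm C hMC hC
  induction δ using WellFoundedLT.induction with
  | ind δ ih =>
  intro hMδ hδ
  have hCD : Sm M C SF.CD := by
    refine h2 _ (Tm.CD.1 M k.toZFm (fun _ => C) fun _ => hMC) fun c hc => ?_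
    obtain ⟨φ, rfl⟩ := mem_CD.1 hc
    exact cd_mem hC φ
  have hlev : ∀ β < δ, Sm M C (LA ∅ β) := by
    intro β hβ
    have hβm : β.toZFSet ∈ δ.toZFSet := Ordinal.toZFSet_mem_toZFSet_iff.2 hβ
    have hMβ : M β.toZFSet := k.trans _ hMδ _ hβm
    refine ih β hβ hMβ (h3 _ _ hMβ hδ ?_)
    exact Ordinal.toZFSet_subset_toZFSet_iff.2 hβ.le
  have hdef : ∀ β < δ, Sm M C (Def (LA ∅ β) ∅) := by
    intro β hβ
    have hβm : β.toZFSet ∈ δ.toZFSet := Ordinal.toZFSet_mem_toZFSet_iff.2 hβ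
    have hMβ : M β.toZFSet := k.trans _ hMδ _ hβm
    have hML : M (LA ∅ β) := by
      rw [← LAS_ord]
      exact (Tm.LAS Tm.empty (Tm.var 0)).1 M k.toZFm (fun _ => β.toZFSet) fun _ => hMβ
    rw [← rg_dset]
    exact h7 _ _ (h4 _ _ hCD (h6 _ (hlev β hβ)))
      (tm_dset.1 M k.toZFm (fun _ => LA ∅ β) fun _ => hML) (svl_resS _ _) (dm_resS _ _)
  have hf : M (resS δ.toZFSet fun x => Def (LAS ∅ x) ∅) :=
    tm_def.1 M k.toZFm (fun _ => δ.toZFSet) fun _ => hMδ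
  have hS := h7 _ _ hδ hf (svl_resS _ _) (dm_resS _ _)
  have hMS : M (rg (resS δ.toZFSet fun x => Def (LAS ∅ x) ∅)) :=
    (Tm.rg (Tm.var 0)).1 M k.toZFm (fun _ => _) fun _ => hf
  have hU := hDG M k C hMC hC _ hMS hS (by
    intro x hx
    obtain ⟨u, hu⟩ := mem_rg.1 hx
    rw [pair_mem_resS] at hu
    obtain ⟨hu, rfl⟩ := hu
    obtain ⟨β, hβ, rfl⟩ := Ordinal.mem_toZFSet_iff.1 hu
    rw [LAS_ord]
    exact hdef β hβ)
  have e : (⋃₀ (rg (resS δ.toZFSet fun x => Def (LAS ∅ x) ∅)) : ZFSet) = LA ∅ δ := by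
    ext y
    rw [ZFSet.mem_sUnion]
    constructor
    · rintro ⟨z, hz, hy⟩
      obtain ⟨u, hu⟩ := mem_rg.1 hz
      rw [pair_mem_resS] at hu
      obtain ⟨hu, rfl⟩ := hu
      obtain ⟨β, hβ, rfl⟩ := Ordinal.mem_toZFSet_iff.1 hu
      rw [LAS_ord] at hy
      exact mem_Lh.2 (Or.inr ⟨β, hβ, hy⟩)
    · intro hy
      rcases mem_Lh.1 hy with hy | ⟨β, hβ, hy⟩
      · exact absurd hy (ZFSet.notMem_empty _)
      · refine ⟨Def (LA ∅ β) ∅, ?_, hy⟩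
        rw [mem_rg]
        refine ⟨β.toZFSet, ?_⟩
        rw [pair_mem_resS]
        refine ⟨Ordinal.toZFSet_mem_toZFSet_iff.2 hβ, ?_⟩
        rw [LAS_ord]
  rwa [e] at hU

end CAA
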